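import Mathlib

set_option autoImplicit false

/-!
# Boolean algebras generated by a chain have the monotone selection property

A Boolean algebra generated by a chain has, as a vector space over the field with two elements, a
basis closed under products (a chain). Well-order this basis arbitrarily and order the elements by
their finite supports in the colexicographic order. Choosing the least element of every sublattice
is monotone.
-/

namespace Pool.Agent.Results.MP_9a43b6_co.IntervalAlgebra

universe u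

/-- The monotone selection property of a lattice: one can choose an element `φ S` in every nonempty
sublattice `S` so that `φ S ≤ φ S'` whenever `x ⊓ x' ∈ S` and `x ⊔ x' ∈ S'` for all `x ∈ S`,
`x' ∈ S'`. -/
def MonotoneSelection (T : Type u) [Lattice T] : Prop :=
  ∃ φ : {S : Sublattice T // (S : Set T).Nonempty} → T,
    (∀ S S' : {S : Sublattice T // (S : Set T).Nonempty},
      (∀ x ∈ S.1, ∀ x' ∈ S'.1, x ⊓ x' ∈ S.1 ∧ x ⊔ x' ∈ S'.1) → φ S ≤ φ S') ∧
    ∀ S, φ S ∈ S.1

/-- The colexicographic relation on finite subsets. -/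
def Col {ι : Type u} [LinearOrder ι] (F G : Finset ι) : Prop :=
  ∃ i, i ∈ G ∧ i ∉ F ∧ ∀ j, i < j → (j ∈ F ↔ j ∈ G)

theorem col_wf (ι : Type u) [LinearOrder ι] [WellFoundedLT ι] :
    WellFounded (Col : Finset ι → Finset ι → Prop) := by
  classical
  have h1 : WellFounded (Finsupp.Lex (fun a b : ι => b < a) (fun a b : ℕ => a < b)) := by
    refine Finsupp.Lex.wellFounded' (fun n => Nat.not_lt_zero n)
      (wellFounded_lt : WellFounded (fun a b : ℕ => a < b)) ?_
    exact (wellFounded_lt : WellFounded (fun a b : ι => a < b))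
  let f : Finset ι → (ι →₀ ℕ) := fun F => Finsupp.indicator F (fun _ _ => 1)
  have hf : ∀ F i, f F i = if i ∈ F then 1 else 0 := by
    intro F i
    simp only [f, Finsupp.indicator_apply]
    split_ifs <;> rfl
  refine Subrelation.wf ?_ (InvImage.wf f h1)
  rintro F G ⟨i, h2, h3, h4⟩
  refine ⟨i, ?_, ?_⟩
  · intro j hj
    rw [hf, hf]
    have := h4 j hj
    simp [this]
  · rw [hf, hf]
    simp [h2, h3]

section ring

variable {R : Type u} [BooleanRing R] {ι : Type u} (e : ι → R)

theorem sum_symm [DecidableEq ι] (F G : Finset ι) :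
    ∑ i ∈ symmDiff F G, e i = ∑ i ∈ F, e i + ∑ i ∈ G, e i := by
  have h1 : Disjoint (F \ G) (G \ F) := disjoint_sdiff_sdiff
  have h2 : symmDiff F G = (F \ G) ∪ (G \ F) := rfl
  have h3 : ∑ i ∈ F, e i = ∑ i ∈ F \ G, e i + ∑ i ∈ F ∩ G, e i := by
    rw [← Finset.sum_union (Finset.disjoint_sdiff_inter F G), Finset.sdiff_union_inter]
  have h4 : ∑ i ∈ G, e i = ∑ i ∈ G \ F, e i + ∑ i ∈ F ∩ G, e i := by
    rw [Finset.inter_comm, ← Finset.sum_union (Finset.disjoint_sdiff_inter G F),
      Finset.sdiff_union_inter]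
  rw [h2, Finset.sum_union h1, h3, h4]
  have h5 : ∑ i ∈ F ∩ G, e i + ∑ i ∈ F ∩ G, e i = 0 := BooleanRing.add_self _
  calc ∑ i ∈ F \ G, e i + ∑ i ∈ G \ F, e i
      = ∑ i ∈ F \ G, e i + ∑ i ∈ G \ F, e i + (∑ i ∈ F ∩ G, e i + ∑ i ∈ F ∩ G, e i) := by
        rw [h5, add_zero]
    _ = _ := by abel

theorem exists_top (hc : ∀ i j, e i * e j = e i ∨ e i * e j = e j) (F : Finset ι)
    (hF : F.Nonempty) : ∃ t ∈ F, ∀ i ∈ F, e i * e t = e i := by
  classical
  induction hF using Finset.Nonempty.cons_induction with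
  | singleton a => exact ⟨a, by simp, by simp [BooleanRing.mul_self]⟩
  | cons a s ha hs ih =>
    obtain ⟨t, ht, h1⟩ := ih
    rcases hc a t with h | h
    · refine ⟨t, by simp [ht], ?_⟩
      intro i hi
      rcases Finset.mem_cons.1 hi with rfl | hi
      · exact h
      · exact h1 i hi
    · refine ⟨a, by simp, ?_⟩
      intro i hi
      rcases Finset.mem_cons.1 hi with rfl | hi
      · exact BooleanRing.mul_self _
      · calc e i * e a = e i * e t * e a := by rw [h1 i hi]
          _ = e i * (e a * e t) := by ring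
          _ = e i := by rw [h, h1 i hi]

theorem indep (hc : ∀ i j, e i * e j = e i ∨ e i * e j = e j) (h0 : ∀ i, e i ≠ 0)
    (hinj : Function.Injective e) (F : Finset ι) (hF : ∑ i ∈ F, e i = 0) : F = ∅ := by
  classical
  by_contra hne
  obtain ⟨t, ht, h1⟩ := exists_top e hc F (Finset.nonempty_iff_ne_empty.2 hne)
  rw [← Finset.add_sum_erase F e ht] at hF
  have h2 : e t = ∑ i ∈ F.erase t, e i := by
    calc e t = e t + (e t + ∑ i ∈ F.erase t, e i) := by rw [hF, add_zero]
      _ = (e t + e t) + ∑ i ∈ F.erase t, e i := by rw [add_assoc]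
      _ = ∑ i ∈ F.erase t, e i := by rw [BooleanRing.add_self, zero_add]
  rcases (F.erase t).eq_empty_or_nonempty with h3 | h3
  · rw [h3] at h2
    exact h0 t (by simpa using h2)
  · obtain ⟨s, hs, h4⟩ := exists_top e hc _ h3
    have h5 : (∑ i ∈ F.erase t, e i) * e s = ∑ i ∈ F.erase t, e i := by
      rw [Finset.sum_mul]
      exact Finset.sum_congr rfl fun i hi => h4 i hi
    have h6 : e s * e t = e s := h1 s (Finset.mem_of_mem_erase hs)
    have h7 : e t = e s := by
      calc e t = e t * e s := by rw [h2, h5]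
        _ = e s * e t := mul_comm _ _
        _ = e s := h6
    exact (Finset.ne_of_mem_erase hs) (hinj h7).symm

theorem mul_sub [DecidableEq ι] (hc : ∀ i j, e i * e j = e i ∨ e i * e j = e j)
    (F G : Finset ι) : ∃ H, H ⊆ F ∪ G ∧ ∑ i ∈ H, e i = (∑ i ∈ F, e i) * ∑ i ∈ G, e i := by
  let p : R → Prop := fun x => ∃ H, H ⊆ F ∪ G ∧ ∑ i ∈ H, e i = x
  have hadd : ∀ x y, p x → p y → p (x + y) := by
    rintro x y ⟨H, hH, rfl⟩ ⟨H', hH', rfl⟩
    refine ⟨symmDiff H H', ?_, sum_symm e H H'⟩
    intro i hi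
    rcases Finset.mem_symmDiff.1 hi with h | h
    · exact hH h.1
    · exact hH' h.1
  have hzero : p 0 := ⟨∅, by simp, by simp⟩
  show p _
  rw [Finset.sum_mul_sum]
  refine Finset.sum_induction _ p hadd hzero fun i hi => ?_
  refine Finset.sum_induction _ p hadd hzero fun j hj => ?_
  rcases hc i j with h | h
  · exact ⟨{i}, by simpa using Or.inl hi, by simp [h]⟩
  · exact ⟨{j}, by simpa using Or.inr hj, by simp [h]⟩

/-- The key step: the least element in the colexicographic order of supports. -/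
theorem key [LinearOrder ι] (hc : ∀ i j, e i * e j = e i ∨ e i * e j = e j) (h0 : ∀ i, e i ≠ 0)
    (hinj : Function.Injective e) (B : R → Finset ι) (hB : ∀ x, ∑ i ∈ B x, e i = x)
    (x x' : R) (h1 : ¬ Col (B (x * x')) (B x)) (h2 : ¬ Col (B (x + x' + x * x')) (B x')) :
    x * x' = x := by
  by_contra hne
  have huniq : ∀ F G : Finset ι, ∑ i ∈ F, e i = ∑ i ∈ G, e i → F = G := by
    intro F G h
    have h3 : ∑ i ∈ symmDiff F G, e i = 0 := by
      rw [sum_symm, h, BooleanRing.add_self]
    have h4 := indep e hc h0 hinj _ h3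
    exact symmDiff_eq_bot.1 h4
  have hBadd : ∀ y z, B (y + z) = symmDiff (B y) (B z) := by
    intro y z
    apply huniq
    rw [sum_symm, hB, hB, hB]
  set d := x + x * x' with hd
  have hd0 : d ≠ 0 := by
    intro h
    apply hne
    calc x * x' = (x + x * x') + x * x' := by rw [← hd, h, zero_add]
      _ = x + (x * x' + x * x') := by rw [add_assoc]
      _ = x := by rw [BooleanRing.add_self, add_zero]
  have hd2 : d = (x + x' + x * x') + x' := by
    have : x' + x' = 0 := BooleanRing.add_self _
    calc d = x + x * x' + (x' + x') := by rw [this, add_zero]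
      _ = _ := by abel
  have e1 : B d = symmDiff (B x) (B (x * x')) := hBadd _ _
  have e2 : B d = symmDiff (B (x + x' + x * x')) (B x') := by
    rw [hd2]
    exact hBadd _ _
  have hne' : (B d).Nonempty := by
    rw [Finset.nonempty_iff_ne_empty]
    intro h
    apply hd0
    rw [← hB d, h]
    simp
  set m := (B d).max' hne' with hm
  have hmm : m ∈ B d := Finset.max'_mem _ _
  have hgt : ∀ j, m < j → j ∉ B d := fun j hj hj' =>
    absurd (Finset.le_max' _ _ hj') (not_le.2 hj)
  have hxx : m ∈ B (x * x') → m ∈ B x ∨ m ∈ B x' := by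
    intro h
    obtain ⟨H, hH1, hH2⟩ := mul_sub e hc (B x) (B x')
    rw [hB, hB] at hH2
    have : B (x * x') = H := huniq _ _ (by rw [hB, hH2])
    rw [this] at h
    simpa using hH1 h
  have hj1 : ∀ j, m < j → (j ∈ B (x * x') ↔ j ∈ B x) := by
    intro j hj
    have := hgt j hj
    rw [e1, Finset.mem_symmDiff] at this
    tauto
  have hj2 : ∀ j, m < j → (j ∈ B (x + x' + x * x') ↔ j ∈ B x') := by
    intro j hj
    have := hgt j hj
    rw [e2, Finset.mem_symmDiff] at this
    tauto
  have hm1 := hmm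
  rw [e1, Finset.mem_symmDiff] at hm1
  have hm2 := hmm
  rw [e2, Finset.mem_symmDiff] at hm2
  rcases hm1 with ⟨ha, hb⟩ | ⟨ha, hb⟩
  · exact h1 ⟨m, ha, hb, hj1⟩
  · have hc' : m ∈ B x' := (hxx ha).resolve_left hb
    have hd' : m ∉ B (x + x' + x * x') := by tauto
    exact h2 ⟨m, hc', hd', hj2⟩

end ring

/-- Every Boolean algebra generated by a chain has the monotone selection property. -/
theorem result : ∀ (T : Type u) [BooleanAlgebra T] (C : Set T),
    IsChain (· ≤ ·) C → BooleanSubalgebra.closure C = ⊤ → MonotoneSelection T := by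
  intro T _ C hC hgen
  classical
  -- the basis
  let D : Set (AsBoolRing T) := {d | d ≠ 0 ∧ (ofBoolRing d ∈ C ∨ d = 1)}
  let ι : Type u := (Cardinal.mk D).ord.ToType
  obtain ⟨eqv⟩ : Nonempty (ι ≃ D) := by
    rw [← Cardinal.eq]
    exact Cardinal.mk_ord_toType _
  let e : ι → AsBoolRing T := fun i => (eqv i).1
  have h0 : ∀ i, e i ≠ 0 := fun i => (eqv i).2.1
  have hinj : Function.Injective e := Subtype.val_injective.comp eqv.injective
  have hmem : ∀ d : AsBoolRing T, d ∈ D → ∃ i, e i = d := fun d hd =>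
    ⟨eqv.symm ⟨d, hd⟩, by simp [e]⟩
  have hc : ∀ i j, e i * e j = e i ∨ e i * e j = e j := by
    intro i j
    rcases (eqv i).2.2 with h1 | h1
    · rcases (eqv j).2.2 with h2 | h2
      · rcases eq_or_ne (ofBoolRing (eqv i).1) (ofBoolRing (eqv j).1) with h3 | h3
        · left
          have h4 : e i = e j := h3
          rw [h4]
          exact BooleanRing.mul_self _
        · rcases hC h1 h2 h3 with h4 | h4
          · left
            exact congrArg toBoolRing (inf_eq_left.2 h4)
          · right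
            exact congrArg toBoolRing (inf_eq_right.2 h4)
      · left
        have h3 : e j = 1 := h2
        rw [h3, mul_one]
    · right
      have h3 : e i = 1 := h1
      rw [h3, one_mul]
  -- spanning
  have hspan : ∀ x : AsBoolRing T, ∃ F : Finset ι, ∑ i ∈ F, e i = x := by
    let L : BooleanSubalgebra T :=
      { carrier := {x : T | ∃ F : Finset ι, ∑ i ∈ F, e i = toBoolRing x}
        supClosed' := by
          rintro x ⟨F, hF⟩ y ⟨G, hG⟩
          obtain ⟨H, _, hH⟩ := mul_sub e hc F G
          refine ⟨symmDiff (symmDiff F G) H, ?_⟩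
          rw [sum_symm, sum_symm, hF, hG, hH, hF, hG]
          show toBoolRing x + toBoolRing y + toBoolRing x * toBoolRing y = toBoolRing (x ⊔ y)
          rw [← toBoolRing_inf, ← toBoolRing_symmDiff, ← toBoolRing_symmDiff,
            symmDiff_symmDiff_inf]
        infClosed' := by
          rintro x ⟨F, hF⟩ y ⟨G, hG⟩
          obtain ⟨H, _, hH⟩ := mul_sub e hc F G
          refine ⟨H, ?_⟩
          rw [hH, hF, hG, toBoolRing_inf]
        compl_mem' := by
          rintro x ⟨F, hF⟩
          have h1 : ∃ G : Finset ι, ∑ i ∈ G, e i = 1 := by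
            by_cases h : (1 : AsBoolRing T) = 0
            · exact ⟨∅, by simp [h]⟩
            · obtain ⟨i, hi⟩ := hmem 1 ⟨h, Or.inr rfl⟩
              exact ⟨{i}, by simp [hi]⟩
          obtain ⟨G, hG⟩ := h1
          refine ⟨symmDiff G F, ?_⟩
          rw [sum_symm, hG, hF, ← toBoolRing_top, ← toBoolRing_symmDiff, top_symmDiff]
          rfl
        bot_mem' := ⟨∅, by simp⟩ }
    have hL : C ⊆ L := by
      intro c hc'
      show ∃ F : Finset ι, ∑ i ∈ F, e i = toBoolRing c
      by_cases h : toBoolRing c = 0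
      · exact ⟨∅, by simp [h]⟩
      · obtain ⟨i, hi⟩ := hmem (toBoolRing c) ⟨h, Or.inl hc'⟩
        exact ⟨{i}, by simp [hi]⟩
    have hL2 : (⊤ : BooleanSubalgebra T) ≤ L := by
      rw [← hgen]
      exact BooleanSubalgebra.closure_le.2 hL
    intro x
    exact hL2 (show ofBoolRing x ∈ (⊤ : BooleanSubalgebra T) from trivial)
  choose B hB using hspan
  have hwf : WellFounded (fun x y : T => Col (B (toBoolRing x)) (B (toBoolRing y))) :=
    InvImage.wf (fun x : T => B (toBoolRing x)) (col_wf ι)
  refine ⟨fun S => hwf.min (S.1 : Set T) S.2, ?_, fun S => hwf.min_mem _ S.2⟩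
  intro S S' hSS
  set x := hwf.min (S.1 : Set T) S.2 with hx
  set x' := hwf.min (S'.1 : Set T) S'.2 with hx'
  have hxm : x ∈ S.1 := hwf.min_mem _ S.2
  have hxm' : x' ∈ S'.1 := hwf.min_mem _ S'.2
  obtain ⟨h1, h2⟩ := hSS x hxm x' hxm'
  have h3 := hwf.not_lt_min (S.1 : Set T) h1
  have h4 := hwf.not_lt_min (S'.1 : Set T) h2
  have h5 := key e hc h0 hinj B hB (toBoolRing x) (toBoolRing x')
    (by rw [← toBoolRing_inf]; exact h3)
    (by
      rw [← toBoolRing_inf, ← toBoolRing_symmDiff, ← toBoolRing_symmDiff, symmDiff_symmDiff_inf]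
      exact h4)
  rw [← toBoolRing_inf] at h5
  exact inf_eq_left.1 (toBoolRing_inj.1 h5)

end Pool.Agent.Results.MP_9a43b6_co.IntervalAlgebra
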